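import Pool.Agent.Helper75.PX.Stmts

/-! Row J3 of sheet PX (MP_ce4989_al): generators of a division algebra of degree three. -/

set_option autoImplicit false

universe u

open Module

namespace Pool.Agent.Helper75.PX

section

variable {K D : Type u} [Field K] [DivisionRing D] [Algebra K D]

/-- eigenvectors of the conjugation by `t` for the three cube roots of unity are independent -/
theorem J3_eig (ζ : K) (h3 : (3 : K) ≠ 0) (hζ : ζ ^ 2 + ζ + 1 = 0) (t X0 X1 X2 : D) (ht : t ≠ 0)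
    (h0 : t * X0 = X0 * t) (h1 : t * X1 = ζ • (X1 * t)) (h2 : t * X2 = (ζ ^ 2) • (X2 * t))
    (hs : X0 + X1 + X2 = 0) : X0 = 0 ∧ X1 = 0 ∧ X2 = 0 := by
  have e1 : X0 + ζ • X1 + (ζ ^ 2) • X2 = 0 := by
    have h : (X0 + ζ • X1 + (ζ ^ 2) • X2) * t = 0 := by
      calc (X0 + ζ • X1 + (ζ ^ 2) • X2) * t = t * (X0 + X1 + X2) := by
            rw [mul_add, mul_add, h0, h1, h2, add_mul, add_mul, smul_mul_assoc, smul_mul_assoc]
        _ = 0 := by rw [hs, mul_zero]
    exact (mul_eq_zero.1 h).resolve_right ht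
  have e2 : X0 + (ζ ^ 2) • X1 + ζ • X2 = 0 := by
    have hz : ζ ^ 2 * ζ ^ 2 = ζ := by linear_combination (ζ ^ 2 - ζ) * hζ
    have h : (X0 + (ζ ^ 2) • X1 + ζ • X2) * t = 0 := by
      calc (X0 + (ζ ^ 2) • X1 + ζ • X2) * t = t * (X0 + ζ • X1 + (ζ ^ 2) • X2) := by
            rw [mul_add, mul_add, mul_smul_comm, mul_smul_comm, h0, h1, h2, add_mul, add_mul,
              smul_mul_assoc, smul_mul_assoc, smul_smul, smul_smul, hz, ← sq]
        _ = 0 := by rw [e1, mul_zero]
    exact (mul_eq_zero.1 h).resolve_right ht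
  have k0 : (3 : K) • X0 = 0 := by
    linear_combination (norm := module) hs + e1 + e2 - hζ • (X1 + X2)
  have k1 : (3 : K) • X1 = 0 := by
    linear_combination (norm := module) hs + (ζ ^ 2) • e1 + ζ • e2 - hζ • X0
      - ((2 * ζ - 2) * hζ) • X1 - ((ζ ^ 2 - ζ + 1) * hζ) • X2
  have k2 : (3 : K) • X2 = 0 := by
    linear_combination (norm := module) hs + ζ • e1 + (ζ ^ 2) • e2 - hζ • X0
      - ((ζ ^ 2 - ζ + 1) * hζ) • X1 - ((2 * ζ - 2) * hζ) • X2
  exact ⟨(smul_eq_zero.1 k0).resolve_left h3, (smul_eq_zero.1 k1).resolve_left h3,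
    (smul_eq_zero.1 k2).resolve_left h3⟩

/-- commutation of `i` with the powers of `j` -/
theorem J3_ji (ζ : K) (i j : D) (h : j * i = ζ • (i * j)) :
    j * j * i = (ζ ^ 2) • (i * (j * j)) ∧ j * j * j * i = (ζ ^ 3) • (i * (j * j * j)) := by
  have e1 : j * j * i = (ζ ^ 2) • (i * (j * j)) := by
    calc j * j * i = j * (j * i) := mul_assoc _ _ _
      _ = (ζ ^ 2) • (i * (j * j)) := by
        rw [h, mul_smul_comm, ← mul_assoc, h, smul_mul_assoc, smul_smul, ← sq, mul_assoc]
  refine ⟨e1, ?_⟩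
  calc j * j * j * i = j * (j * j * i) := by simp only [mul_assoc]
    _ = (ζ ^ 3) • (i * (j * j * j)) := by
      rw [e1, mul_smul_comm, ← mul_assoc, h, smul_mul_assoc, smul_smul, ← pow_succ]
      simp only [mul_assoc]

/-- commutation of the powers of `i` with `j` -/
theorem J3_ii (ζ : K) (i j : D) (h : j * i = ζ • (i * j)) :
    j * (i * i) = (ζ ^ 2) • (i * i * j) := by
  rw [← mul_assoc, h, smul_mul_assoc, mul_assoc, h, mul_smul_comm, smul_smul, ← sq, ← mul_assoc]

/-- the eigenvector -/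
theorem J3_ex [Algebra.IsCentral K D] (ζ : K) (h3 : (3 : K) ≠ 0) (hζ : ζ ^ 2 + ζ + 1 = 0) (i : D)
    (c : K) (hi : i * i * i = algebraMap K D c) (hk : ∀ k : K, i ≠ algebraMap K D k) :
    ∃ j : D, j ≠ 0 ∧ j * i = ζ • (i * j) := by
  have hi0 : i ≠ 0 := by
    intro h
    refine hk 0 ?_
    rw [h, map_zero]
  have hc0 : c ≠ 0 := by
    intro h
    rw [h, map_zero] at hi
    exact hi0 (by
      rcases mul_eq_zero.1 hi with h1 | h1
      · exact (mul_eq_zero.1 h1).elim id id
      · exact h1)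
  have hz3 : ζ ^ 3 = 1 := by linear_combination (ζ - 1) * hζ
  obtain ⟨y, hy⟩ : ∃ y : D, y * i ≠ i * y := by
    by_contra hcon
    push Not at hcon
    have hm : i ∈ Subalgebra.center K D := by
      rw [Subalgebra.mem_center_iff]
      exact hcon
    obtain ⟨k, hk'⟩ := Algebra.mem_bot.1 (Algebra.IsCentral.out hm)
    exact hk k hk'.symm
  have ic : ∀ x : D, i * (i * (i * x)) = c • x := by
    intro x
    rw [← mul_assoc, ← mul_assoc, hi, Algebra.smul_def]
  have ci : ∀ x : D, x * (i * (i * i)) = c • x := by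
    intro x
    rw [← mul_assoc i i i, hi, ← Algebra.commutes, Algebra.smul_def]
  -- the two eigenvectors
  obtain ⟨y1, h1⟩ : ∃ y1 : D, y1 = c • y + (ζ ^ 2) • (i * (y * (i * i))) +
    ζ • (i * (i * (y * i))) := ⟨_, rfl⟩
  obtain ⟨y2, h2⟩ : ∃ y2 : D, y2 = c • y + ζ • (i * (y * (i * i))) +
    (ζ ^ 2) • (i * (i * (y * i))) := ⟨_, rfl⟩
  have e1 : i * y1 = ζ • (y1 * i) := by
    rw [h1]
    simp only [mul_add, add_mul, mul_smul_comm, smul_mul_assoc, mul_assoc, ic, ci, smul_add,
      smul_smul]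
    linear_combination (norm := module) (-c * hz3) • (i * y)
  have e2 : y2 * i = ζ • (i * y2) := by
    rw [h2]
    simp only [mul_add, add_mul, mul_smul_comm, smul_mul_assoc, mul_assoc, ic, ci, smul_add,
      smul_smul]
    linear_combination (norm := module) (-c * hz3) • (y * i)
  by_cases hy2 : y2 = 0
  · by_cases hy1 : y1 = 0
    · exfalso
      obtain ⟨y0, h0⟩ : ∃ y0 : D, y0 = c • y + i * (y * (i * i)) + i * (i * (y * i)) := ⟨_, rfl⟩
      have e0 : y0 * i = i * y0 := by
        rw [h0]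
        simp only [mul_add, add_mul, mul_smul_comm, smul_mul_assoc, mul_assoc, ic, ci]
        abel
      have e3 : y0 = (3 * c) • y := by
        have h4 : y0 + y1 + y2 = (3 * c) • y := by
          rw [h0, h1, h2]
          linear_combination (norm := module) hζ • (i * (y * (i * i)) + i * (i * (y * i)))
        rw [hy1, hy2, add_zero, add_zero] at h4
        exact h4
      rw [e3, smul_mul_assoc, mul_smul_comm] at e0
      exact hy (smul_right_injective D (mul_ne_zero h3 hc0) e0)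
    · refine ⟨y1 * y1, mul_ne_zero hy1 hy1, ?_⟩
      have e4 : y1 * i = (ζ ^ 2) • (i * y1) := by
        rw [e1, smul_smul, ← pow_succ, hz3, one_smul]
      rw [mul_assoc, e4, mul_smul_comm, ← mul_assoc, e4, smul_mul_assoc, smul_smul, mul_assoc]
      congr 1
      linear_combination ζ * hz3
  · exact ⟨y2, hy2, e2⟩

/-- the nine monomials are independent -/
theorem J3_li (ζ : K) (h3 : (3 : K) ≠ 0) (hζ : ζ ^ 2 + ζ + 1 = 0) (i j : D) (hi : i ≠ 0)
    (hj : j ≠ 0) (h : j * i = ζ • (i * j)) : LinearIndependent K (e3 i j) := by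
  have hz3 : ζ ^ 3 = 1 := by linear_combination (ζ - 1) * hζ
  have hij : i * j = (ζ ^ 2) • (j * i) := by
    rw [h, smul_smul, ← pow_succ, hz3, one_smul]
  have hijj : i * (j * j) = ζ • (j * j * i) := by
    rw [(J3_ji ζ i j h).1, smul_smul, ← pow_succ', hz3, one_smul]
  -- the independence of `1, i, i²`
  have key : ∀ a b d : K, a • (1 : D) + b • i + d • (i * i) = 0 → a = 0 ∧ b = 0 ∧ d = 0 := by
    intro a b d he
    have := J3_eig ζ h3 hζ j (a • (1 : D)) (b • i) (d • (i * i)) hj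
      (by rw [mul_smul_comm, smul_mul_assoc, mul_one, one_mul])
      (by rw [mul_smul_comm, smul_mul_assoc, h, smul_comm])
      (by rw [mul_smul_comm, smul_mul_assoc, J3_ii ζ i j h, smul_comm]) he
    exact ⟨(smul_eq_zero.1 this.1).resolve_right one_ne_zero,
      (smul_eq_zero.1 this.2.1).resolve_right hi,
      (smul_eq_zero.1 this.2.2).resolve_right (mul_ne_zero hi hi)⟩
  rw [Fintype.linearIndependent_iff]
  intro g hg
  obtain ⟨s, hs⟩ : ∃ s : Fin 3 → D, s = fun b =>
    g (0, b) • (1 : D) + g (1, b) • i + g (2, b) • (i * i) := ⟨_, rfl⟩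
  have hsi : ∀ b, i * s b = s b * i := by
    intro b
    rw [hs]
    simp only [mul_add, add_mul, mul_smul_comm, smul_mul_assoc, mul_assoc, mul_one, one_mul]
  have hsum : s 0 + s 2 * (j * j) + s 1 * j = 0 := by
    rw [← hg, Fintype.sum_prod_type, hs]
    simp only [Fin.sum_univ_three, e3, Fin.val_zero, Fin.val_one, Fin.val_two, pow_zero, pow_one,
      pow_two, mul_one, one_mul, add_mul, smul_mul_assoc]
    abel
  have hres := J3_eig ζ h3 hζ i (s 0) (s 2 * (j * j)) (s 1 * j) hi (hsi 0)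
    (by rw [← mul_assoc, hsi, mul_assoc, hijj, mul_smul_comm, ← mul_assoc])
    (by rw [← mul_assoc, hsi, mul_assoc, hij, mul_smul_comm, mul_assoc]) hsum
  have r0 : s 0 = 0 := hres.1
  have r2 : s 2 = 0 := (mul_eq_zero.1 hres.2.1).resolve_right (mul_ne_zero hj hj)
  have r1 : s 1 = 0 := (mul_eq_zero.1 hres.2.2).resolve_right hj
  rw [hs] at r0 r1 r2
  have q0 := key _ _ _ r0
  have q1 := key _ _ _ r1
  have q2 := key _ _ _ r2
  rintro ⟨x, b⟩
  fin_cases x <;> fin_cases b
  · exact q0.1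
  · exact q1.1
  · exact q2.1
  · exact q0.2.1
  · exact q1.2.1
  · exact q2.2.1
  · exact q0.2.2
  · exact q1.2.2
  · exact q2.2.2

end

theorem st_J3 : ST_J3.{u} := by
  intro K D _ _ _ _ ζ hd h3 hζ i c hi hk
  obtain ⟨j, hj0, hj⟩ := J3_ex ζ h3 hζ i c hi hk
  have hi0 : i ≠ 0 := by
    intro h
    refine hk 0 ?_
    rw [h, map_zero]
  have hz3 : ζ ^ 3 = 1 := by linear_combination (ζ - 1) * hζ
  have hfd : FiniteDimensional K D := FiniteDimensional.of_finrank_pos (by rw [hd]; norm_num)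
  have hli := J3_li ζ h3 hζ i j hi0 hj0 hj
  have hspan := hli.span_eq_top_of_card_eq_finrank' (by rw [hd]; rfl)
  have hji : j * j * j * i = i * (j * j * j) := by
    rw [(J3_ji ζ i j hj).2, hz3, one_smul]
  have hjj : j * j * j * j = j * (j * j * j) := by simp only [mul_assoc]
  have hcen : j * j * j ∈ Subalgebra.center K D := by
    rw [Subalgebra.mem_center_iff]
    intro x
    have hx : x ∈ Submodule.span K (Set.range (e3 i j)) := by
      rw [hspan]
      exact Submodule.mem_top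
    induction hx using Submodule.span_induction with
    | mem x hx =>
      obtain ⟨s, rfl⟩ := hx
      have c1 : Commute (j * j * j) i := hji
      have c2 : Commute (j * j * j) j := hjj
      exact ((c1.pow_right _).mul_right (c2.pow_right _)).eq.symm
    | zero => rw [zero_mul, mul_zero]
    | add x y _ _ h1 h2 => rw [add_mul, mul_add, h1, h2]
    | smul a x _ h1 => rw [smul_mul_assoc, mul_smul_comm, h1]
  obtain ⟨d, hd'⟩ := Algebra.mem_bot.1 (Algebra.IsCentral.out hcen)
  refine ⟨j, d, hi, hd'.symm, hj, ?_, ?_⟩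
  · intro h
    rw [h, map_zero] at hi
    exact mul_ne_zero (mul_ne_zero hi0 hi0) hi0 hi
  · intro h
    rw [h, map_zero] at hd'
    exact mul_ne_zero (mul_ne_zero hj0 hj0) hj0 hd'.symm

end Pool.Agent.Helper75.PX
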